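import Mathlib

set_option autoImplicit false

namespace Pool.Agent.Results.MP_8fc134_al.AColumns

/-- The minimal generating set of a submonoid of `ℕ`: the nonzero elements that are not the sum of
two nonzero elements. -/
def minGens (G : AddSubmonoid ℕ) : Set ℕ :=
  {g | g ∈ G ∧ g ≠ 0 ∧ ∀ a ∈ G, ∀ b ∈ G, a ≠ 0 → b ≠ 0 → a + b ≠ g}

/-- The factorization homomorphism from the free commutative monoid on the minimal generators. -/
def phi (G : AddSubmonoid ℕ) : Multiset (minGens G) →+ ℕ where
  toFun s := (s.map Subtype.val).sum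
  map_zero' := by simp
  map_add' a b := by simp

/-- `X` consists of nonzero residues mod `m`, `D` is a set of pairs (2-element multisets) from `X`, and for each
pair in `D` its sum is mod `m` different from all other sums of two elements of `{0} ∪ X`. -/
structure GoodD (m : ℕ) (X : Finset ℕ) (D : Finset (Multiset ℕ)) : Prop where
  pos : ∀ x ∈ X, 0 < x ∧ x < m
  pairs : ∀ p ∈ D, ∃ x ∈ X, ∃ y ∈ X, p = {x, y}
  uniq : ∀ x ∈ X, ∀ y ∈ X, ({x, y} : Multiset ℕ) ∈ D → ∀ a ∈ insert 0 X, ∀ b ∈ insert 0 X,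
    (x + y) % m = (a + b) % m → (a = x ∧ b = y) ∨ (a = y ∧ b = x)

/-- membership in the semigroup -/
def MemD (m : ℕ) (X : Finset ℕ) (D : Finset (Multiset ℕ)) (n : ℕ) : Prop :=
  n % m = 0 ∨ (3 * m ≤ n ∧ n % m ∈ X) ∨
    (5 * m ≤ n ∧ n % m ∉ X ∧
      ∀ x ∈ X, ∀ y ∈ X, ({x, y} : Multiset ℕ) ∈ D → (x + y) % m ≠ n % m) ∨
    (∃ x ∈ X, ∃ y ∈ X, ({x, y} : Multiset ℕ) ∈ D ∧ n = 6 * m + x + y) ∨ 7 * m ≤ n

/-- the residues that are neither 0, nor in X, nor a sum of a pair in D -/
def WD (m : ℕ) (X : Finset ℕ) (D : Finset (Multiset ℕ)) : Finset ℕ :=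
  (Finset.range m).filter fun w => w ≠ 0 ∧ w ∉ X ∧
    ∀ x ∈ X, ∀ y ∈ X, ({x, y} : Multiset ℕ) ∈ D → (x + y) % m ≠ w

/-- the generators -/
def genD (m : ℕ) (X : Finset ℕ) (D : Finset (Multiset ℕ)) : Finset ℕ :=
  insert m (X.image (fun x => 3 * m + x) ∪ (WD m X D).image (fun w => 5 * m + w))

/-- `P` generates the congruence `{(a, b) : φ a = φ b}`. -/
def IsPresentation (G : AddSubmonoid ℕ) (P : Set (Multiset (minGens G) × Multiset (minGens G))) :
    Prop :=
  addConGen (fun a b => (a, b) ∈ P) = AddCon.ker (phi G)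

/-- The number of minimal relations: the least cardinality of a presentation. -/
noncomputable def rho (G : AddSubmonoid ℕ) : ℕ∞ :=
  ⨅ P : {P : Set (Multiset (minGens G) × Multiset (minGens G)) // IsPresentation G P}, P.1.encard

/-- `R(e, m)`: the supremum of `rho G` over the numerical semigroups `G` of embedding dimension
`e + 1` and multiplicity `m`. -/
noncomputable def R (e m : ℕ) : ℕ∞ :=
  ⨆ G : {G : AddSubmonoid ℕ // {n : ℕ | n ∉ G}.Finite ∧ (minGens G).encard = e + 1 ∧
    IsLeast {n | n ∈ G ∧ n ≠ 0} m}, rho G.1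

/-- `u` is the value of `n` at the Macaulay operator of degree `d`, `u = n^<d>`: either both are
zero, or `n` is the sum of the binomial coefficients `choose (f i) i` for `j ≤ i ≤ d`, with `f`
strictly increasing and `j ≤ f j`, and `u` is the sum of the `choose (f i + 1) (i + 1)`. -/
def IsUpper (n d u : ℕ) : Prop :=
  (n = 0 ∧ u = 0) ∨ ∃ (j : ℕ) (f : ℕ → ℕ), 1 ≤ j ∧ j ≤ d ∧ j ≤ f j ∧
    (∀ i, j ≤ i → i < d → f i < f (i + 1)) ∧
    n = ∑ i ∈ Finset.Icc j d, (f i).choose i ∧
    u = ∑ i ∈ Finset.Icc j d, (f i + 1).choose (i + 1)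

/-- `c = C(e, m)` is the general upper bound for embedding dimension `e + 1` and multiplicity
`m`. -/
def IsGeneralBound (e m c : ℕ) : Prop :=
  ∃ r s u : ℕ, 1 ≤ r ∧ (e + r - 1).choose (r - 1) ≤ m ∧ m < (e + r).choose r ∧
    m = (e + r - 1).choose (r - 1) + s ∧
    IsUpper s r u ∧ c + s = (e + r - 1).choose r + u

/-- `C(e, m) ≤ R(e, m)`. By the known bound `R(e, m) ≤ C(e, m)` this says `R(e, m) = C(e, m)`. -/
def Attained (e m : ℕ) : Prop := ∃ c : ℕ, IsGeneralBound e m c ∧ (c : ℕ∞) ≤ R e m

/-- The elements of `Z` form a Sidon set modulo `m`. -/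
def SidonMod (m : ℕ) (Z : Finset ℕ) : Prop :=
  ∀ a ∈ Z, ∀ b ∈ Z, ∀ c ∈ Z, ∀ d ∈ Z, (a + b) % m = (c + d) % m →
    (a = c ∧ b = d) ∨ (a = d ∧ b = c)

theorem phi_apply (G : AddSubmonoid ℕ) (s : Multiset (minGens G)) :
    phi G s = (s.map Subtype.val).sum := rfl

/-- abstract lower bound for the number of relations -/
theorem lower {M : Type*} [AddCommMonoid M] (φ : M →+ ℕ) (C : Finset M)
    (h1 : ∀ c ∈ C, ∀ u p, u ≠ 0 → c = u + p → ∀ q, φ q = φ p → q = p)
    (h2 : ∀ c ∈ C, ∃ d, d ∉ C ∧ φ d = φ c)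
    (P : Set (M × M)) (hP : addConGen (fun a b => (a, b) ∈ P) = AddCon.ker φ) :
    (C.card : ℕ∞) ≤ P.encard := by
  classical
  by_cases hfin : P.Finite
  swap
  · rw [Set.Infinite.encard_eq hfin]
    exact le_top
  set δ : M → (C → ℚ) := fun a c => if a = (c : M) then 1 else 0 with hδ
  set S : Submodule ℚ (C → ℚ) :=
    Submodule.span ℚ ((fun p : M × M => δ p.1 - δ p.2) '' P) with hS
  have trans_lem : ∀ u p q, φ p = φ q → δ p - δ q ∈ S → δ (u + p) - δ (u + q) ∈ S := by
    intro u p q hpq hd
    by_cases hu : u = 0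
    · subst hu
      simpa using hd
    by_cases hne : p = q
    · subst hne
      simp
    have a1 : ∀ c ∈ C, u + p ≠ c := by
      intro c hc h
      exact hne (h1 c hc u p hu h.symm q hpq.symm).symm
    have a2 : ∀ c ∈ C, u + q ≠ c := by
      intro c hc h
      exact hne (h1 c hc u q hu h.symm p hpq)
    have b1 : δ (u + p) = 0 := by
      funext c
      simp only [hδ, Pi.zero_apply]
      exact if_neg (a1 c c.2)
    have b2 : δ (u + q) = 0 := by
      funext c
      simp only [hδ, Pi.zero_apply]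
      exact if_neg (a2 c c.2)
    rw [b1, b2]
    simp
  let K : AddCon M :=
    { r := fun a b => φ a = φ b ∧ δ a - δ b ∈ S
      iseqv := ⟨fun a => ⟨rfl, by rw [sub_self]; exact S.zero_mem⟩,
        fun {a b} h => ⟨h.1.symm, by
          have := S.neg_mem h.2
          rwa [neg_sub] at this⟩,
        fun {a b c} h h' => ⟨h.1.trans h'.1, by
          have := S.add_mem h.2 h'.2
          rwa [sub_add_sub_cancel] at this⟩⟩
      add' := fun {w x y z} h h' => ⟨by rw [map_add, map_add, h.1, h'.1], by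
        have e1 := trans_lem y w x h.1 h.2
        have e2 := trans_lem x y z h'.1 h'.2
        have := S.add_mem e1 e2
        rw [add_comm y w, add_comm y x, sub_add_sub_cancel] at this
        exact this⟩ }
  have hle : addConGen (fun a b => (a, b) ∈ P) ≤ K := by
    rw [AddCon.addConGen_le]
    intro a b hab
    refine ⟨?_, Submodule.subset_span ⟨(a, b), hab, rfl⟩⟩
    have h3 : (AddCon.ker φ) a b := by
      rw [← hP]
      exact AddConGen.Rel.of a b hab
    exact h3
  rw [hP] at hle
  have hspan : S = ⊤ := by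
    rw [eq_top_iff, ← (Pi.basisFun ℚ C).span_eq, Submodule.span_le]
    rintro _ ⟨c, rfl⟩
    obtain ⟨d, hd, hdc⟩ := h2 c c.2
    have h3 : (AddCon.ker φ) (c : M) d := hdc.symm
    have h := (hle h3).2
    have e1 : δ d = 0 := by
      funext c'
      simp only [hδ, Pi.zero_apply]
      refine if_neg ?_
      intro h4
      exact hd (h4 ▸ c'.2)
    have e2 : δ (c : M) = Pi.basisFun ℚ C c := by
      funext c'
      simp only [hδ, Pi.basisFun_apply, Pi.single_apply]
      by_cases h5 : c' = c
      · subst h5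
        simp
      · have h6 : (c : M) ≠ (c' : M) := fun h7 => h5 (Subtype.ext h7.symm)
        rw [if_neg h6, if_neg h5]
    rw [e1, sub_zero, e2] at h
    exact h
  have hcard : C.card ≤ hfin.toFinset.card := by
    have h3 : Module.finrank ℚ (C → ℚ) = C.card := by simp
    have h4 : Module.finrank ℚ S = C.card := by
      rw [hspan, finrank_top, h3]
    have h5 : S = Submodule.span ℚ
        ((hfin.toFinset.image (fun p : M × M => δ p.1 - δ p.2) : Finset (C → ℚ)) : Set (C → ℚ)) := by
      rw [hS]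
      congr 1
      simp
    have h6 := finrank_span_finset_le_card (R := ℚ)
      (hfin.toFinset.image (fun p : M × M => δ p.1 - δ p.2))
    unfold Set.finrank at h6
    rw [← h5, h4] at h6
    exact h6.trans Finset.card_image_le
  rw [hfin.encard_eq_coe_toFinset_card]
  exact_mod_cast hcard

theorem add_memD_aux1 (m : ℕ) (X : Finset ℕ) (D : Finset (Multiset ℕ)) (hm : 0 < m) (a b : ℕ)
    (ha : a % m = 0) (hb : MemD m X D b) : MemD m X D (a + b) := by
  have hmod : (a + b) % m = b % m := by
    rw [Nat.add_mod, ha, zero_add, Nat.mod_mod]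
  rcases Nat.eq_zero_or_pos a with h0 | h0
  · subst h0
    rw [zero_add]
    exact hb
  · have ham : m ≤ a := Nat.le_of_dvd h0 (Nat.dvd_of_mod_eq_zero ha)
    rcases hb with hb | ⟨h1, h2⟩ | ⟨h1, h2, h3⟩ | ⟨x, hx, y, hy, hxy, h⟩ | h
    · left
      rw [hmod]; exact hb
    · right; left
      rw [hmod]
      exact ⟨by omega, h2⟩
    · right; right; left
      rw [hmod]
      exact ⟨by omega, h2, h3⟩
    · right; right; right; right
      omega
    · right; right; right; right
      omega

theorem add_memD_aux2 (m : ℕ) (X : Finset ℕ) (D : Finset (Multiset ℕ)) (hm : 0 < m) (a : ℕ)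
    (ha : MemD m X D a) (h0 : a % m ≠ 0) :
    4 * m ≤ a ∨ (a < 4 * m ∧ a = 3 * m + a % m ∧ a % m ∈ X) := by
  by_cases h4 : 4 * m ≤ a
  · exact Or.inl h4
  · right
    rcases ha with hb | ⟨h1, h2⟩ | ⟨h1, h2, h3⟩ | ⟨x, hx, y, hy, hxy, h⟩ | h
    · exact absurd hb h0
    · have hdiv : a / m = 3 := by
        apply Nat.div_eq_of_lt_le
        · exact h1
        · omega
      have := Nat.div_add_mod a m
      rw [hdiv] at this
      exact ⟨by omega, by omega, h2⟩
    · omega
    · omega
    · omega

theorem add_memD (m : ℕ) (X : Finset ℕ) (D : Finset (Multiset ℕ)) (hm : 0 < m) (hX : GoodD m X D)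
    (a b : ℕ) (ha : MemD m X D a) (hb : MemD m X D b) : MemD m X D (a + b) := by
  by_cases ha0 : a % m = 0
  · exact add_memD_aux1 m X D hm a b ha0 hb
  by_cases hb0 : b % m = 0
  · rw [add_comm]
    exact add_memD_aux1 m X D hm b a hb0 ha
  rcases add_memD_aux2 m X D hm a ha ha0 with h1 | ⟨h1, h1e, h1X⟩
  · rcases add_memD_aux2 m X D hm b hb hb0 with h2 | ⟨h2, h2e, h2X⟩
    · right; right; right; right; omega
    · right; right; right; right; omega
  · rcases add_memD_aux2 m X D hm b hb hb0 with h2 | ⟨h2, h2e, h2X⟩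
    · right; right; right; right; omega
    · by_cases hD : ({a % m, b % m} : Multiset ℕ) ∈ D
      · right; right; right; left
        exact ⟨a % m, h1X, b % m, h2X, hD, by omega⟩
      · by_cases hz : (a + b) % m = 0
        · exact Or.inl hz
        · by_cases hin : (a + b) % m ∈ X
          · right; left
            exact ⟨by omega, hin⟩
          · right; right; left
            refine ⟨by omega, hin, ?_⟩
            intro u hu v hv huv heq
            have h5 : (u + v) % m = (a % m + b % m) % m := by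
              rw [heq, Nat.add_mod]
            rcases hX.uniq u hu v hv huv (a % m) (Finset.mem_insert_of_mem h1X) (b % m)
              (Finset.mem_insert_of_mem h2X) h5 with ⟨h6, h7⟩ | ⟨h6, h7⟩
            · apply hD
              rw [h6, h7]
              exact huv
            · apply hD
              rw [h6, h7, Multiset.pair_comm]
              exact huv

/-- the semigroup -/
def GamD (m : ℕ) (X : Finset ℕ) (D : Finset (Multiset ℕ)) (hm : 0 < m) (hX : GoodD m X D) :
    AddSubmonoid ℕ where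
  carrier := {n | MemD m X D n}
  zero_mem' := Or.inl (Nat.zero_mod m)
  add_mem' {a b} ha hb := add_memD m X D hm hX a b ha hb

theorem mem_GamD (m : ℕ) (X : Finset ℕ) (D : Finset (Multiset ℕ)) (hm : 0 < m) (hX : GoodD m X D)
    (n : ℕ) : n ∈ GamD m X D hm hX ↔ MemD m X D n := Iff.rfl

theorem modk979 (k m r : ℕ) (h : r < m) : (k * m + r) % m = r := by
  rw [Nat.mul_add_mod', Nat.mod_eq_of_lt h]

/-- auxiliary lemma -/
theorem minGens_GamD (m : ℕ) (X : Finset ℕ) (D : Finset (Multiset ℕ)) (hm : 0 < m)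
    (hX : GoodD m X D) : minGens (GamD m X D hm hX) = ↑(genD m X D) := by
  have hpos := hX.pos
  have hmm : MemD m X D m := Or.inl (Nat.mod_self m)
  have hge : ∀ a, MemD m X D a → a ≠ 0 → m ≤ a := by
    intro a ha h0
    rcases ha with h | ⟨h, _⟩ | ⟨h, _⟩ | ⟨x, hx, y, hy, _, h⟩ | h
    · exact Nat.le_of_dvd (Nat.pos_of_ne_zero h0) (Nat.dvd_of_mod_eq_zero h)
    · omega
    · omega
    · omega
    · omega
  have hge3 : ∀ a, MemD m X D a → a % m ≠ 0 → 3 * m ≤ a := by
    intro a ha h0
    rcases ha with h | ⟨h, _⟩ | ⟨h, _⟩ | ⟨x, hx, y, hy, _, h⟩ | h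
    · exact absurd h h0
    · omega
    · omega
    · omega
    · omega
  ext g
  constructor
  · rintro ⟨hg, hg0, hirr⟩
    rw [mem_GamD] at hg
    have key : ∀ h, g = h + m → MemD m X D h → h ≠ 0 → False := by
      intro h e hh h0
      exact hirr h hh m hmm h0 (by omega) e.symm
    have hmg := hge g hg hg0
    obtain ⟨h, hh⟩ : ∃ h, g = h + m := ⟨g - m, by omega⟩
    have hmod : h % m = g % m := by rw [hh, Nat.add_mod_right]
    have hlt : g % m < m := Nat.mod_lt _ hm
    simp only [genD, Finset.coe_insert, Finset.coe_union, Finset.coe_image, Set.mem_insert_iff,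
      Set.mem_union, Set.mem_image, Finset.mem_coe]
    by_cases hz : g % m = 0
    · left
      by_contra hne
      exact key h hh (Or.inl (by rw [hmod, hz])) (by omega)
    rcases hg with h1 | ⟨h1, h2⟩ | ⟨h1, h2, h3⟩ | ⟨x, hx, y, hy, _, h1⟩ | h1
    · exact absurd h1 hz
    · by_cases h4 : 4 * m ≤ g
      · exact (key h hh (Or.inr (Or.inl ⟨by omega, by rw [hmod]; exact h2⟩)) (by omega)).elim
      · obtain ⟨r, hr⟩ : ∃ r, g = 3 * m + r := ⟨g - 3 * m, by omega⟩
        have hrm : g % m = r := by rw [hr, modk979 3 m r (by omega)]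
        right; left
        exact ⟨r, hrm ▸ h2, hr.symm⟩
    · by_cases h4 : 6 * m ≤ g
      · exact (key h hh (Or.inr (Or.inr (Or.inl ⟨by omega, by rw [hmod]; exact h2,
          by rw [hmod]; exact h3⟩))) (by omega)).elim
      · obtain ⟨r, hr⟩ : ∃ r, g = 5 * m + r := ⟨g - 5 * m, by omega⟩
        have hrm : g % m = r := by rw [hr, modk979 5 m r (by omega)]
        right; right
        refine ⟨r, ?_, hr.symm⟩
        rw [hrm] at hz h2 h3
        simp only [WD, Finset.mem_filter, Finset.mem_range]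
        exact ⟨by omega, hz, h2, h3⟩
    · exfalso
      have hx' := hpos x hx
      have hy' := hpos y hy
      refine hirr (3 * m + x) ?_ (3 * m + y) ?_ (by omega) (by omega) (by omega)
      · exact Or.inr (Or.inl ⟨by omega, by rw [modk979 3 m x hx'.2]; exact hx⟩)
      · exact Or.inr (Or.inl ⟨by omega, by rw [modk979 3 m y hy'.2]; exact hy⟩)
    · exfalso
      by_cases h8 : 8 * m ≤ g
      · exact key h hh (Or.inr (Or.inr (Or.inr (Or.inr (by omega))))) (by omega)
      obtain ⟨r, hr⟩ : ∃ r, g = 7 * m + r := ⟨g - 7 * m, by omega⟩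
      have hrm : g % m = r := by rw [hr, modk979 7 m r (by omega)]
      by_cases hrX : r ∈ X
      · exact key h hh (Or.inr (Or.inl ⟨by omega, by rw [hmod, hrm]; exact hrX⟩)) (by omega)
      by_cases hs : ∀ x ∈ X, ∀ y ∈ X, ({x, y} : Multiset ℕ) ∈ D → (x + y) % m ≠ r
      · exact key h hh (Or.inr (Or.inr (Or.inl ⟨by omega, by rw [hmod, hrm]; exact hrX,
          by rw [hmod, hrm]; exact hs⟩))) (by omega)
      push Not at hs
      obtain ⟨x, hx, y, hy, hxD, hxy⟩ := hs
      have hx' := hpos x hx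
      have hy' := hpos y hy
      by_cases hl : x + y < m
      · rw [Nat.mod_eq_of_lt hl] at hxy
        exact key h hh (Or.inr (Or.inr (Or.inr (Or.inl ⟨x, hx, y, hy, hxD, by omega⟩)))) (by omega)
      · have e : x + y = m + r := by
          have e1 : (x + y) % m = x + y - m := by
            rw [Nat.mod_eq_sub_mod (by omega), Nat.mod_eq_of_lt (by omega)]
          omega
        refine hirr (3 * m + x) ?_ (3 * m + y) ?_ (by omega) (by omega) (by omega)
        · exact Or.inr (Or.inl ⟨by omega, by rw [modk979 3 m x hx'.2]; exact hx⟩)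
        · exact Or.inr (Or.inl ⟨by omega, by rw [modk979 3 m y hy'.2]; exact hy⟩)
  · intro hg
    simp only [genD, Finset.coe_insert, Finset.coe_union, Finset.coe_image, Set.mem_insert_iff,
      Set.mem_union, Set.mem_image, Finset.mem_coe] at hg
    have both : ∀ a b : ℕ, a % m = 0 → b % m = 0 → (a + b) % m = 0 := by
      intro a b ha hb
      rw [Nat.add_mod, ha, hb, add_zero, Nat.zero_mod]
    rcases hg with rfl | ⟨x, hx, rfl⟩ | ⟨w, hw, rfl⟩
    · refine ⟨hmm, by omega, ?_⟩
      intro a ha b hb ha0 hb0 e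
      have := hge a ha ha0
      have := hge b hb hb0
      omega
    · have hx' := hpos x hx
      refine ⟨Or.inr (Or.inl ⟨by omega, by rw [modk979 3 m x hx'.2]; exact hx⟩), by omega, ?_⟩
      intro a ha b hb ha0 hb0 e
      have h1 := hge a ha ha0
      have h2 := hge b hb hb0
      by_cases ha1 : a % m = 0
      · by_cases hb1 : b % m = 0
        · have := both a b ha1 hb1
          rw [e, modk979 3 m x hx'.2] at this
          omega
        · have := hge3 b hb hb1
          omega
      · have := hge3 a ha ha1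
        omega
    · simp only [WD, Finset.mem_filter, Finset.mem_range] at hw
      obtain ⟨hwm, hw0, hwX, hws⟩ := hw
      refine ⟨Or.inr (Or.inr (Or.inl ⟨by omega, ?_, ?_⟩)), by omega, ?_⟩
      · rw [modk979 5 m w hwm]; exact hwX
      · rw [modk979 5 m w hwm]; exact hws
      have last : ∀ a b : ℕ, MemD m X D a → MemD m X D b → a ≠ 0 → b ≠ 0 → a + b = 5 * m + w →
          b % m = 0 → False := by
        intro a b ha hb ha0 hb0 e hb1
        have h2 := hge b hb hb0
        have ham : a % m = w := by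
          have : (a + b) % m = w := by rw [e, modk979 5 m w hwm]
          rw [Nat.add_mod, hb1, add_zero, Nat.mod_mod] at this
          exact this
        rcases ha with h | ⟨h, h'⟩ | ⟨h, _⟩ | ⟨x, hx, y, hy, _, h⟩ | h
        · omega
        · rw [ham] at h'; exact hwX h'
        · omega
        · omega
        · omega
      intro a ha b hb ha0 hb0 e
      by_cases hb1 : b % m = 0
      · exact last a b ha hb ha0 hb0 e hb1
      by_cases ha1 : a % m = 0
      · exact last b a hb ha hb0 ha0 (by omega) ha1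
      have := hge3 b hb hb1
      have := hge3 a ha ha1
      omega

/-- auxiliary lemma -/
theorem card_genD (m : ℕ) (X : Finset ℕ) (D : Finset (Multiset ℕ)) (hm : 0 < m)
    (hX : GoodD m X D) : (genD m X D).card + D.card = m := by
  have hXm : ∀ x ∈ X, 0 < x ∧ x < m := hX.pos
  have hsum : ∀ x y : ℕ, (({x, y} : Multiset ℕ)).sum = x + y := by
    intro x y
    simp
  have hA : (genD m X D).card = 1 + X.card + (WD m X D).card := by
    unfold genD
    rw [Finset.card_insert_of_notMem, Finset.card_union_of_disjoint,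
      Finset.card_image_of_injective, Finset.card_image_of_injective]
    · ring
    · intro a b h
      dsimp only at h
      omega
    · intro a b h
      dsimp only at h
      omega
    · rw [Finset.disjoint_left]
      intro z hz hz'
      rw [Finset.mem_image] at hz hz'
      obtain ⟨x, hx, h1⟩ := hz
      obtain ⟨w, hw, h2⟩ := hz'
      have := (hXm x hx).2
      omega
    · intro h
      rw [Finset.mem_union, Finset.mem_image, Finset.mem_image] at h
      rcases h with ⟨x, hx, h⟩ | ⟨w, hw, h⟩ <;> omega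
  have hWmem : ∀ w, w ∈ WD m X D ↔ w < m ∧ w ≠ 0 ∧ w ∉ X ∧
      ∀ x ∈ X, ∀ y ∈ X, ({x, y} : Multiset ℕ) ∈ D → (x + y) % m ≠ w := by
    intro w
    unfold WD
    rw [Finset.mem_filter, Finset.mem_range]
  obtain ⟨Q, hQ⟩ : ∃ Q : Finset ℕ, Q = D.image (fun p => p.sum % m) := ⟨_, rfl⟩
  have hQmem : ∀ w, w ∈ Q ↔ ∃ x ∈ X, ∃ y ∈ X, ({x, y} : Multiset ℕ) ∈ D ∧ (x + y) % m = w := by
    intro w
    rw [hQ, Finset.mem_image]
    constructor
    · rintro ⟨p, hp, rfl⟩
      obtain ⟨x, hx, y, hy, rfl⟩ := hX.pairs p hp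
      exact ⟨x, hx, y, hy, hp, by rw [hsum]⟩
    · rintro ⟨x, hx, y, hy, hp, h⟩
      exact ⟨{x, y}, hp, by rw [hsum]; exact h⟩
  have hU : Finset.range m = WD m X D ∪ insert 0 (X ∪ Q) := by
    ext w
    rw [Finset.mem_range, Finset.mem_union, Finset.mem_insert, Finset.mem_union]
    constructor
    · intro hw
      by_cases h0 : w = 0
      · exact Or.inr (Or.inl h0)
      · by_cases h1 : w ∈ X
        · exact Or.inr (Or.inr (Or.inl h1))
        · by_cases h2 : w ∈ Q
          · exact Or.inr (Or.inr (Or.inr h2))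
          · left
            rw [hWmem]
            refine ⟨hw, h0, h1, ?_⟩
            intro x hx y hy hp h
            apply h2
            rw [hQmem]
            exact ⟨x, hx, y, hy, hp, h⟩
    · rintro (h | h | h | h)
      · exact ((hWmem w).mp h).1
      · omega
      · exact (hXm w h).2
      · obtain ⟨x, hx, y, hy, hp, h⟩ := (hQmem w).mp h
        rw [← h]
        exact Nat.mod_lt _ hm
  have hdis : Disjoint (WD m X D) (insert 0 (X ∪ Q)) := by
    rw [Finset.disjoint_left]
    intro w hw hw'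
    obtain ⟨h1, h2, h3, h4⟩ := (hWmem w).mp hw
    rw [Finset.mem_insert, Finset.mem_union] at hw'
    rcases hw' with h | h | h
    · exact h2 h
    · exact h3 h
    · obtain ⟨x, hx, y, hy, hp, h⟩ := (hQmem w).mp h
      exact h4 x hx y hy hp h
  have h0X : (0 : ℕ) ∉ X := fun h => by
    have := (hXm 0 h).1
    omega
  have h0Q : (0 : ℕ) ∉ Q := by
    intro h
    obtain ⟨x, hx, y, hy, hp, h⟩ := (hQmem 0).mp h
    have h1 : (x + y) % m = (0 + 0) % m := by rw [h]; simp
    have hx0 := (hXm x hx).1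
    have hy0 := (hXm y hy).1
    rcases hX.uniq x hx y hy hp 0 (Finset.mem_insert_self _ _) 0 (Finset.mem_insert_self _ _) h1
      with ⟨h2, h3⟩ | ⟨h2, h3⟩ <;> omega
  have hXQ : Disjoint X Q := by
    rw [Finset.disjoint_left]
    intro z hz hzQ
    obtain ⟨x, hx, y, hy, hp, h⟩ := (hQmem z).mp hzQ
    have h1 : (x + y) % m = (z + 0) % m := by
      rw [h, add_zero, Nat.mod_eq_of_lt (hXm z hz).2]
    have hx0 := (hXm x hx).1
    have hy0 := (hXm y hy).1
    rcases hX.uniq x hx y hy hp z (Finset.mem_insert_of_mem hz) 0 (Finset.mem_insert_self _ _) h1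
      with ⟨h2, h3⟩ | ⟨h2, h3⟩ <;> omega
  have hQcard : Q.card = D.card := by
    rw [hQ]
    apply Finset.card_image_of_injOn
    intro p hp q hq hpq
    obtain ⟨x, hx, y, hy, rfl⟩ := hX.pairs p hp
    obtain ⟨a, ha, b, hb, rfl⟩ := hX.pairs q hq
    dsimp only at hpq
    rw [hsum, hsum] at hpq
    rcases hX.uniq x hx y hy hp a (Finset.mem_insert_of_mem ha) b (Finset.mem_insert_of_mem hb) hpq
      with ⟨h2, h3⟩ | ⟨h2, h3⟩
    · rw [h2, h3]
    · rw [h2, h3]
      exact Multiset.pair_comm x y
  have hcard : m = (WD m X D).card + (X.card + Q.card + 1) := by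
    have h1 := congrArg Finset.card hU
    rw [Finset.card_range, Finset.card_union_of_disjoint hdis,
      Finset.card_insert_of_notMem (by rw [Finset.mem_union]; tauto),
      Finset.card_union_of_disjoint hXQ] at h1
    exact h1
  omega

/-- auxiliary lemma -/
theorem rigid2D (m : ℕ) (X : Finset ℕ) (D : Finset (Multiset ℕ)) (hm : 0 < m) (hX : GoodD m X D)
    (hgen : minGens (GamD m X D hm hX) = ↑(genD m X D)) (x y : ℕ) (hx : x ∈ X) (hy : y ∈ X)
    (hD : ({x, y} : Multiset ℕ) ∈ D)
    (p : Multiset (minGens (GamD m X D hm hX)))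
    (hp : p.map Subtype.val = {3 * m + x, 3 * m + y})
    (q : Multiset (minGens (GamD m X D hm hX)))
    (hq : phi (GamD m X D hm hX) q = phi (GamD m X D hm hX) p) :
    q = p := by
  have hinj : Function.Injective
      (Multiset.map (fun t : minGens (GamD m X D hm hX) => (t : ℕ))) :=
    Multiset.map_injective Subtype.val_injective
  apply hinj
  obtain ⟨Q, hQ⟩ : ∃ Q, Q = Multiset.map (fun t : minGens (GamD m X D hm hX) => (t : ℕ)) q := ⟨_, rfl⟩

  have hx' := hX.pos x hx
  have hy' := hX.pos y hy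
  have hp' : Multiset.map (fun t : minGens (GamD m X D hm hX) => (t : ℕ)) p =
      {3 * m + x, 3 * m + y} := hp
  have hphi : ∀ r : Multiset (minGens (GamD m X D hm hX)), phi (GamD m X D hm hX) r =
      (Multiset.map (fun t : minGens (GamD m X D hm hX) => (t : ℕ)) r).sum := fun r =>
    phi_apply _ r
  have hsum : Q.sum = 6 * m + x + y := by
    have h1 : phi (GamD m X D hm hX) q = Q.sum := by rw [hQ]; exact hphi q
    have h2 := hphi p
    rw [hp'] at h2
    have h3 : ({3 * m + x, 3 * m + y} : Multiset ℕ).sum = (3 * m + x) + (3 * m + y) := by simp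
    omega
  have hmemG : ∀ t ∈ Q, t ∈ minGens (GamD m X D hm hX) := by
    intro t ht
    rw [hQ, Multiset.mem_map] at ht
    obtain ⟨s, _, rfl⟩ := ht
    exact s.2
  have hmG : ∀ t ∈ Q, t ∈ genD m X D := by
    intro t ht
    have h := hmemG t ht
    rw [hgen] at h
    exact Finset.mem_coe.mp h
  have hin0 : (0 : ℕ) ∈ insert 0 X := Finset.mem_insert_self _ _
  have hinX : ∀ z ∈ X, z ∈ insert 0 X := fun z hz => Finset.mem_insert_of_mem hz
  have hmod : ∀ j z : ℕ, (j * m + z) % m = z % m := by
    intro j z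
    rw [Nat.add_comm, Nat.add_mul_mod_self_right]
  have key : ¬ MemD m X D (5 * m + x + y) := by
    intro h
    have hmod5 : (5 * m + x + y) % m = (x + y) % m := by
      rw [Nat.add_assoc, hmod]
    rcases h with h | ⟨_, h⟩ | ⟨_, _, h⟩ | ⟨a, ha, b, hb, _, h⟩ | h
    · rw [hmod5] at h
      have h0 : (x + y) % m = (0 + 0) % m := by rw [h]; simp
      rcases hX.uniq x hx y hy hD 0 hin0 0 hin0 h0 with h | h <;> omega
    · rw [hmod5] at h
      have hz := hX.pos _ h
      have h0 : (x + y) % m = ((x + y) % m + 0) % m := by simp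
      rcases hX.uniq x hx y hy hD _ (hinX _ h) 0 hin0 h0 with h | h <;> omega
    · exact h x hx y hy hD hmod5.symm
    · have h0 : (x + y) % m = (a + b) % m := by
        rw [← hmod5, h, Nat.add_assoc, hmod]
      rcases hX.uniq x hx y hy hD a (hinX a ha) b (hinX b hb) h0 with h | h <;> omega
    · omega
  have hmQ : m ∉ Q := by
    intro h
    obtain ⟨Q', hQ'⟩ := Multiset.exists_cons_of_mem h
    have hs : Q'.sum = 5 * m + x + y := by
      rw [hQ', Multiset.sum_cons] at hsum
      omega
    have h2 : Q'.sum ∈ GamD m X D hm hX :=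
      AddSubmonoid.multiset_sum_mem _ _
        (fun t ht => (hmemG t (by rw [hQ']; exact Multiset.mem_cons_of_mem ht)).1)
    rw [hs] at h2
    exact key h2
  have hform : ∀ t ∈ Q, (∃ a ∈ X, t = 3 * m + a) ∨ (∃ w, 0 < w ∧ t = 5 * m + w) := by
    intro t ht
    have h := hmG t ht
    unfold genD at h
    rw [Finset.mem_insert, Finset.mem_union, Finset.mem_image, Finset.mem_image] at h
    rcases h with h | ⟨a, ha, h⟩ | ⟨w, hw, h⟩
    · rw [h] at ht
      exact absurd ht hmQ
    · left; exact ⟨a, ha, h.symm⟩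
    · right
      unfold WD at hw
      rw [Finset.mem_filter] at hw
      exact ⟨w, Nat.pos_of_ne_zero hw.2.1, h.symm⟩
  have hbig : ∀ t ∈ Q, 3 * m + 1 ≤ t := by
    intro t ht
    rcases hform t ht with ⟨a, ha, h⟩ | ⟨w, hw, h⟩
    · have := (hX.pos a ha).1
      omega
    · omega
  have hcard : Q.card ≤ 2 := by
    by_contra hc
    push Not at hc
    have h3 := Multiset.card_nsmul_le_sum hbig
    rw [smul_eq_mul, hsum] at h3
    have h4 : 3 * (3 * m + 1) ≤ Q.card * (3 * m + 1) := Nat.mul_le_mul_right _ hc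
    omega
  have hGx : 3 * m + x ∈ GamD m X D hm hX := by
    have h : 3 * m + x ∈ Multiset.map (fun t : minGens (GamD m X D hm hX) => (t : ℕ)) p := by rw [hp']; simp
    rw [Multiset.mem_map] at h
    obtain ⟨s, _, hs⟩ := h
    have h2 := s.2.1
    rw [← hs]; exact h2
  have hGy : 3 * m + y ∈ GamD m X D hm hX := by
    have h : 3 * m + y ∈ Multiset.map (fun t : minGens (GamD m X D hm hX) => (t : ℕ)) p := by rw [hp']; simp
    rw [Multiset.mem_map] at h
    obtain ⟨s, _, hs⟩ := h
    have h2 := s.2.1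
    rw [← hs]; exact h2
  show Multiset.map (fun t : minGens (GamD m X D hm hX) => (t : ℕ)) q =
    Multiset.map (fun t : minGens (GamD m X D hm hX) => (t : ℕ)) p
  rw [hp', ← hQ]
  have h012 : Q.card = 0 ∨ Q.card = 1 ∨ Q.card = 2 := by omega
  rcases h012 with hc | hc | hc
  · rw [Multiset.card_eq_zero] at hc
    rw [hc] at hsum
    simp at hsum
    omega
  · obtain ⟨g, hg⟩ := Multiset.card_eq_one.mp hc
    have hgn : g = 6 * m + x + y := by
      rw [hg, Multiset.sum_singleton] at hsum
      exact hsum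
    have hgmin := hmemG g (by rw [hg]; exact Multiset.mem_singleton_self _)
    exact absurd (show (3 * m + x) + (3 * m + y) = g by omega)
      (hgmin.2.2 (3 * m + x) hGx (3 * m + y) hGy (by omega) (by omega))
  · obtain ⟨g, g', hg⟩ := Multiset.card_eq_two.mp hc
    have hgs : g + g' = 6 * m + x + y := by
      rw [hg] at hsum
      simpa using hsum
    have h1 : g ∈ Q := by rw [hg]; simp
    have h2 : g' ∈ Q := by rw [hg]; simp
    have b1 := hbig g h1
    have b2 := hbig g' h2
    rcases hform g h1 with ⟨a, ha, e1⟩ | ⟨w, hw, e1⟩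
    · rcases hform g' h2 with ⟨b, hb, e2⟩ | ⟨w, hw, e2⟩
      · have hab : a + b = x + y := by omega
        have h0 : (a + b) % m = (x + y) % m := by rw [hab]
        rcases hX.uniq x hx y hy hD a (hinX a ha) b (hinX b hb) h0.symm with
          ⟨r1, r2⟩ | ⟨r1, r2⟩
        · rw [hg, e1, e2, r1, r2]
        · rw [hg, e1, e2, r1, r2]
          exact Multiset.pair_comm _ _
      · omega
    · omega

theorem exF {α : Type*} (Z : Finset α) (n : ℕ) : ∃ F : Finset (Multiset α),
    (∀ c, c ∈ F ↔ c.card = n ∧ ∀ t ∈ c, t ∈ Z) ∧ F.card = (Z.card + n - 1).choose n := by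
  classical
  refine ⟨(Finset.univ : Finset (Sym Z n)).image (fun s => s.1.map Subtype.val), ?_, ?_⟩
  · intro c
    simp only [Finset.mem_image, Finset.mem_univ, true_and]
    constructor
    · rintro ⟨s, rfl⟩
      refine ⟨by rw [Multiset.card_map]; exact s.2, ?_⟩
      intro t ht
      rw [Multiset.mem_map] at ht
      obtain ⟨z, -, rfl⟩ := ht
      exact z.2
    · rintro ⟨h1, h2⟩
      lift c to Multiset Z using h2
      rw [Multiset.card_map] at h1
      exact ⟨⟨c, h1⟩, rfl⟩
  · rw [Finset.card_image_of_injective, Finset.card_univ, Sym.card_sym_eq_choose, Fintype.card_coe]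
    intro a b hab
    exact Subtype.ext (Multiset.map_injective Subtype.val_injective hab)


/-! general facts -/

theorem mem_of_minGens {G : AddSubmonoid ℕ} (t : minGens G) : (t : ℕ) ∈ G := t.2.1

theorem phi_mem {G : AddSubmonoid ℕ} (s : Multiset (minGens G)) : phi G s ∈ G := by
  induction s using Multiset.induction_on with
  | empty => simp
  | cons a s ih =>
    have : phi G (a ::ₘ s) = (a : ℕ) + phi G s := by
      simp [phi_apply]
    rw [this]
    exact G.add_mem (mem_of_minGens a) ih

theorem phi_cons {G : AddSubmonoid ℕ} (a : minGens G) (s : Multiset (minGens G)) :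
    phi G (a ::ₘ s) = (a : ℕ) + phi G s := by
  simp [phi_apply]

theorem phi_zero_iff {G : AddSubmonoid ℕ} (s : Multiset (minGens G)) (h : phi G s = 0) : s = 0 := by
  induction s using Multiset.induction_on with
  | empty => rfl
  | cons a s ih =>
    rw [phi_cons] at h
    have := a.2.2.1
    omega

theorem phi_single {G : AddSubmonoid ℕ} (g : minGens G) (s : Multiset (minGens G))
    (h : phi G s = (g : ℕ)) : s = {g} := by
  induction s using Multiset.induction_on with
  | empty =>
    exfalso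
    rw [map_zero] at h
    exact g.2.2.1 h.symm
  | cons a s _ =>
    rw [phi_cons] at h
    by_cases hs : phi G s = 0
    · have h1 := phi_zero_iff s hs
      subst h1
      rw [hs, add_zero] at h
      have : a = g := Subtype.ext h
      rw [this]
      rfl
    · exact absurd h (g.2.2.2 a (mem_of_minGens a) _ (phi_mem s) a.2.2.1 hs)

theorem exists_factorization {G : AddSubmonoid ℕ} (n : ℕ) (hn : n ∈ G) :
    ∃ s : Multiset (minGens G), phi G s = n := by
  induction n using Nat.strong_induction_on with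
  | _ n ih =>
    by_cases h0 : n = 0
    · exact ⟨0, by rw [map_zero, h0]⟩
    · by_cases h : n ∈ minGens G
      · refine ⟨{⟨n, h⟩}, ?_⟩
        simp [phi_apply]
      · have h2 : ∃ a ∈ G, ∃ b ∈ G, a ≠ 0 ∧ b ≠ 0 ∧ a + b = n := by
          by_contra hc
          push Not at hc
          exact h ⟨hn, h0, fun a ha b hb ha0 hb0 => hc a ha b hb ha0 hb0⟩
        obtain ⟨a, ha, b, hb, ha0, hb0, hab⟩ := h2
        obtain ⟨s, hs⟩ := ih a (by omega) ha
        obtain ⟨t, ht⟩ := ih b (by omega) hb
        exact ⟨s + t, by rw [map_add, hs, ht, hab]⟩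

theorem GamD_cofinite (m : ℕ) (X : Finset ℕ) (D : Finset (Multiset ℕ)) (hm : 0 < m)
    (hX : GoodD m X D) : {n : ℕ | n ∉ GamD m X D hm hX}.Finite := by
  refine (Finset.range (7 * m)).finite_toSet.subset ?_
  intro n hn
  rw [Finset.coe_range, Set.mem_Iio]
  by_contra hc
  exact hn (Or.inr (Or.inr (Or.inr (Or.inr (not_lt.mp hc)))))

theorem GamD_least (m : ℕ) (X : Finset ℕ) (D : Finset (Multiset ℕ)) (hm : 0 < m)
    (hX : GoodD m X D) : IsLeast {n | n ∈ GamD m X D hm hX ∧ n ≠ 0} m := by
  refine ⟨⟨Or.inl (Nat.mod_self m), hm.ne'⟩, ?_⟩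
  rintro n ⟨hn, h0⟩
  rcases hn with h | ⟨h, _⟩ | ⟨h, _⟩ | ⟨x, _, y, _, _, h⟩ | h
  · exact Nat.le_of_dvd (Nat.pos_of_ne_zero h0) (Nat.dvd_of_mod_eq_zero h)
  all_goals omega

/-- The main estimate. -/
theorem rho_GamD (m : ℕ) (X : Finset ℕ) (D T : Finset (Multiset ℕ)) (hm : 0 < m)
    (hX : GoodD m X D) (hT : ∀ c ∈ T, c.card = 3 ∧ ∀ p, p ≤ c → p.card = 2 → p ∈ D) (e : ℕ)
    (he : e + 1 + D.card = m) :
    (((e + 1).choose 2 + T.card - D.card : ℕ) : ℕ∞) ≤ rho (GamD m X D hm hX) := by
  classical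
  set G := GamD m X D hm hX with hG
  have hgen : minGens G = ↑(genD m X D) := minGens_GamD m X D hm hX
  have hcard := card_genD m X D hm hX
  have hgc : (genD m X D).card = e + 1 := by omega
  have hmemgen : ∀ t : minGens G, (t : ℕ) ∈ genD m X D := by
    intro t
    have h1 := (Set.ext_iff.1 hgen (t : ℕ)).1 t.2
    exact_mod_cast h1
  have hgen' : ∀ n ∈ genD m X D, n ∈ minGens G := by
    intro n hn
    exact (Set.ext_iff.1 hgen n).2 (by exact_mod_cast hn)
  have hXgen : ∀ x ∈ X, 3 * m + x ∈ genD m X D := by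
    intro x hx
    unfold genD
    rw [Finset.mem_insert, Finset.mem_union]
    right; left
    exact Finset.mem_image_of_mem _ hx
  have hmg : m ∈ genD m X D := Finset.mem_insert_self _ _
  obtain ⟨F2, hF2, hF2c⟩ := exF ((genD m X D).erase m) 2
  have hinj : Function.Injective (Multiset.map (fun x : ℕ => 3 * m + x)) :=
    Multiset.map_injective (fun a b h => by simpa using h)
  let D' := D.image (Multiset.map (fun x : ℕ => 3 * m + x))
  let T' := T.image (Multiset.map (fun x : ℕ => 3 * m + x))
  have hD'F : D' ⊆ F2 := by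
    intro c hc
    obtain ⟨p, hp, rfl⟩ := Finset.mem_image.1 hc
    obtain ⟨x, hx, y, hy, rfl⟩ := hX.pairs p hp
    rw [hF2]
    refine ⟨by simp, ?_⟩
    intro t ht
    simp only [Multiset.insert_eq_cons, Multiset.map_cons, Multiset.map_singleton,
      Multiset.mem_cons, Multiset.mem_singleton] at ht
    rw [Finset.mem_erase]
    rcases ht with rfl | rfl
    · exact ⟨by omega, hXgen x hx⟩
    · exact ⟨by omega, hXgen y hy⟩
  have hTX : ∀ c ∈ T, ∀ t ∈ c, t ∈ X := by
    intro c hc t ht
    obtain ⟨h3, hsub⟩ := hT c hc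
    obtain ⟨a, b, d, rfl⟩ := Multiset.card_eq_three.1 h3
    have h1 := hsub {a, b} (by
      rw [show ({a, b, d} : Multiset ℕ) = {a, b} + {d} by rfl]
      exact Multiset.le_add_right _ _) (by simp)
    have h2 := hsub {b, d} (by
      rw [show ({a, b, d} : Multiset ℕ) = a ::ₘ {b, d} by rfl]
      exact Multiset.le_cons_self _ _) (by simp)
    have hin : ∀ p ∈ D, ∀ t ∈ p, t ∈ X := by
      intro p hp t ht
      obtain ⟨x, hx, y, hy, rfl⟩ := hX.pairs p hp
      simp only [Multiset.insert_eq_cons, Multiset.mem_cons, Multiset.mem_singleton] at ht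
      rcases ht with rfl | rfl
      · exact hx
      · exact hy
    simp only [Multiset.insert_eq_cons, Multiset.mem_cons, Multiset.mem_singleton] at ht
    rcases ht with rfl | rfl | rfl
    · exact hin _ h1 _ (by simp)
    · exact hin _ h1 _ (by simp)
    · exact hin _ h2 _ (by simp)
  let Cn := (F2 \ D') ∪ T'
  have hCnc : Cn.card + D.card = (e + 1).choose 2 + T.card := by
    have h1 : (F2 \ D').card + D'.card = F2.card := Finset.card_sdiff_add_card_eq_card hD'F
    have h2 : D'.card = D.card := Finset.card_image_of_injective _ hinj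
    have h3 : T'.card = T.card := Finset.card_image_of_injective _ hinj
    have h4 : Cn.card = (F2 \ D').card + T'.card := by
      apply Finset.card_union_of_disjoint
      rw [Finset.disjoint_left]
      intro c hc hcT
      obtain ⟨t, ht, rfl⟩ := Finset.mem_image.1 hcT
      have h5 := ((hF2 _).1 (Finset.mem_sdiff.1 hc).1).1
      have h6 := (hT t ht).1
      rw [Multiset.card_map] at h5
      omega
    have h5 : F2.card = (e + 1).choose 2 := by
      rw [hF2c, Finset.card_erase_of_mem hmg, hgc]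
      congr 1
    omega
  have hCnmem : ∀ c ∈ Cn, ∀ t ∈ c, t ∈ genD m X D ∧ t ≠ m := by
    intro c hc t ht
    rcases Finset.mem_union.1 hc with hc | hc
    · have := ((hF2 _).1 (Finset.mem_sdiff.1 hc).1).2 t ht
      rw [Finset.mem_erase] at this
      exact ⟨this.2, this.1⟩
    · obtain ⟨c', hc', rfl⟩ := Finset.mem_image.1 hc
      obtain ⟨x, hx, rfl⟩ := Multiset.mem_map.1 ht
      exact ⟨hXgen x (hTX c' hc' x hx), by omega⟩
  have hvinj : Function.Injective (Multiset.map (Subtype.val : minGens G → ℕ)) :=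
    Multiset.map_injective Subtype.val_injective
  let C : Finset (Multiset (minGens G)) :=
    Cn.preimage (Multiset.map (Subtype.val : minGens G → ℕ)) hvinj.injOn
  have hCmem : ∀ c, c ∈ C ↔ c.map Subtype.val ∈ Cn := by
    intro c
    exact Finset.mem_preimage
  have hCc : C.card = Cn.card := by
    have h1 : C.image (Multiset.map (Subtype.val : minGens G → ℕ)) = Cn := by
      ext c
      rw [Finset.mem_image]
      constructor
      · rintro ⟨s, hs, rfl⟩
        exact (hCmem s).1 hs
      · intro hc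
        have hall : ∀ t ∈ c, t ∈ minGens G := fun t ht => hgen' t (hCnmem c hc t ht).1
        have hlift : (c.pmap (fun t ht => (⟨t, ht⟩ : minGens G)) hall).map Subtype.val = c := by
          rw [Multiset.map_pmap, Multiset.pmap_eq_map, Multiset.map_id']
        refine ⟨c.pmap (fun t ht => (⟨t, ht⟩ : minGens G)) hall, ?_, hlift⟩
        rw [hCmem, hlift]
        exact hc
    rw [← h1, Finset.card_image_of_injective _ hvinj]
  have hphi : ∀ s : Multiset (minGens G), phi G s = (s.map Subtype.val).sum := fun s =>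
    phi_apply _ s
  have hkey : ((C.card : ℕ) : ℕ∞) ≤ rho G := by
    unfold rho
    refine le_iInf fun P => ?_
    refine lower (phi G) C ?_ ?_ P.1 P.2
    · -- isolated
      intro c hc u p hu hcup q hq
      have hup : u.card ≠ 0 := by
        rw [Ne, Multiset.card_eq_zero]; exact hu
      have hcc : c.card = u.card + p.card := by rw [hcup, Multiset.card_add]
      by_cases hp0 : p.card = 0
      · rw [Multiset.card_eq_zero] at hp0
        subst hp0
        rw [map_zero] at hq
        exact phi_zero_iff q hq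
      by_cases hp1 : p.card = 1
      · obtain ⟨g, rfl⟩ := Multiset.card_eq_one.1 hp1
        have : phi G {g} = (g : ℕ) := by simp [phi_apply]
        rw [this] at hq
        exact phi_single g q hq
      have hc' := (hCmem c).1 hc
      rcases Finset.mem_union.1 hc' with hc2 | hc3
      · exfalso
        have h5 := ((hF2 _).1 (Finset.mem_sdiff.1 hc2).1).1
        rw [Multiset.card_map] at h5
        omega
      · obtain ⟨t, ht, htc⟩ := Finset.mem_image.1 hc3
        obtain ⟨h3, hsub⟩ := hT t ht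
        have hp2 : p.card = 2 := by
          have : c.card = 3 := by
            have := congrArg Multiset.card htc
            rw [Multiset.card_map, Multiset.card_map] at this
            omega
          omega
        have hple : p.map Subtype.val ≤ t.map (fun x : ℕ => 3 * m + x) := by
          rw [htc, hcup, Multiset.map_add]
          exact Multiset.le_add_left _ _
        have hback : (t.map (fun x : ℕ => 3 * m + x)).map (fun v => v - 3 * m) = t := by
          rw [Multiset.map_map]
          simp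
        have hp0le : (p.map Subtype.val).map (fun v => v - 3 * m) ≤ t := by
          have h := Multiset.map_le_map (f := fun v => v - 3 * m) hple
          rw [hback] at h
          exact h
        have hp0D := hsub _ hp0le (by simpa using hp2)
        obtain ⟨x, hx, y, hy, hxy⟩ := hX.pairs _ hp0D
        have hfw : ((p.map Subtype.val).map (fun v => v - 3 * m)).map (fun x : ℕ => 3 * m + x) =
            p.map Subtype.val := by
          rw [Multiset.map_map]
          conv_rhs => rw [← Multiset.map_id (p.map Subtype.val)]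
          apply Multiset.map_congr rfl
          intro v hv
          have hv2 := Multiset.mem_of_le hple hv
          obtain ⟨w, _, rfl⟩ := Multiset.mem_map.1 hv2
          simp
        refine rigid2D m X D hm hX hgen x y hx hy (hxy ▸ hp0D) p ?_ q hq
        rw [hxy] at hfw
        have hfw' : p.map Subtype.val = {3 * m + x, 3 * m + y} := by
          rw [← hfw]
          simp
        rw [← hfw']
    · -- not rigid
      intro c hc
      have hc' := (hCmem c).1 hc
      have hclass : ∀ t, t ∈ genD m X D ∧ t ≠ m → (∃ x ∈ X, t = 3 * m + x) ∨ 5 * m ≤ t := by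
        rintro t ⟨h1, ht⟩
        unfold genD at h1
        simp only [Finset.mem_insert, Finset.mem_union, Finset.mem_image] at h1
        rcases h1 with h1 | ⟨x, hx, h1⟩ | ⟨w, hw, h1⟩
        · exact absurd h1 ht
        · exact Or.inl ⟨x, hx, h1.symm⟩
        · right; omega
      have hmem : m ≤ phi G c ∧ phi G c - m ∈ G := by
        rcases Finset.mem_union.1 hc' with hc2 | hc3
        · obtain ⟨hcF, hcD⟩ := Finset.mem_sdiff.1 hc2
          obtain ⟨h2, hall⟩ := (hF2 _).1 hcF
          obtain ⟨s, t, hst⟩ := Multiset.card_eq_two.1 h2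
          have hs := hCnmem _ hc' s (by rw [hst]; simp)
          have ht := hCnmem _ hc' t (by rw [hst]; simp)
          have hval : phi G c = s + t := by rw [hphi, hst]; simp
          rcases hclass s hs with ⟨x, hx, hsx⟩ | hs5
          · rcases hclass t ht with ⟨y, hy, hty⟩ | ht5
            · have hxyD : ({x, y} : Multiset ℕ) ∉ D := by
                intro hxy
                apply hcD
                rw [hst, hsx, hty]
                refine Finset.mem_image.2 ⟨{x, y}, hxy, ?_⟩
                simp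
              refine ⟨by omega, ?_⟩
              rw [hval, hsx, hty]
              have heq : 3 * m + x + (3 * m + y) - m = 5 * m + (x + y) := by omega
              rw [heq, hG, mem_GamD]
              have hmod : (5 * m + (x + y)) % m = (x + y) % m := by
                rw [Nat.add_mod, Nat.mul_mod_left, Nat.zero_add, Nat.mod_mod]
              unfold MemD
              rw [hmod]
              by_cases h0 : (x + y) % m = 0
              · exact Or.inl h0
              by_cases hxX : (x + y) % m ∈ X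
              · exact Or.inr (Or.inl ⟨by omega, hxX⟩)
              · refine Or.inr (Or.inr (Or.inl ⟨by omega, hxX, ?_⟩))
                intro u hu v hv huv hne
                rcases hX.uniq u hu v hv huv x (Finset.mem_insert_of_mem hx) y
                  (Finset.mem_insert_of_mem hy) hne with ⟨h1, h2⟩ | ⟨h1, h2⟩
                · rw [h1, h2] at hxyD; exact hxyD huv
                · rw [h1, h2, Multiset.pair_comm] at hxyD; exact hxyD huv
            · refine ⟨by omega, ?_⟩
              rw [hval, hG, mem_GamD]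
              exact Or.inr (Or.inr (Or.inr (Or.inr (by omega))))
          · have ht3 : 3 * m ≤ t := by
              rcases hclass t ht with ⟨y, hy, hty⟩ | ht5 <;> omega
            refine ⟨by omega, ?_⟩
            rw [hval, hG, mem_GamD]
            exact Or.inr (Or.inr (Or.inr (Or.inr (by omega))))
        · obtain ⟨t, ht, htc⟩ := Finset.mem_image.1 hc3
          obtain ⟨h3, hsub⟩ := hT t ht
          obtain ⟨a, b, d, rfl⟩ := Multiset.card_eq_three.1 h3
          have hval : phi G c = (3 * m + a) + ((3 * m + b) + (3 * m + d)) := by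
            rw [hphi, ← htc]; simp
          refine ⟨by omega, ?_⟩
          rw [hval, hG, mem_GamD]
          exact Or.inr (Or.inr (Or.inr (Or.inr (by omega))))
      obtain ⟨d, hd⟩ := exists_factorization _ hmem.2
      refine ⟨(⟨m, hgen' m hmg⟩ : minGens G) ::ₘ d, ?_, ?_⟩
      · intro hdC
        have h1 := (hCmem _).1 hdC
        exact (hCnmem _ h1 m (by simp)).2 rfl
      · rw [phi_cons, hd]
        show m + _ = _
        omega
  refine le_trans ?_ hkey
  have : (e + 1).choose 2 + T.card - D.card = C.card := by omega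
  rw [this]

theorem R_geD (m : ℕ) (X : Finset ℕ) (D T : Finset (Multiset ℕ)) (hm : 0 < m)
    (hX : GoodD m X D) (hT : ∀ c ∈ T, c.card = 3 ∧ ∀ p, p ≤ c → p.card = 2 → p ∈ D) (e : ℕ)
    (he : e + 1 + D.card = m) :
    (((e + 1).choose 2 + T.card - D.card : ℕ) : ℕ∞) ≤ R e m := by
  refine le_trans (rho_GamD m X D T hm hX hT e he) ?_
  unfold R
  refine le_iSup_of_le ⟨GamD m X D hm hX, GamD_cofinite m X D hm hX, ?_, GamD_least m X D hm hX⟩
    le_rfl
  rw [minGens_GamD m X D hm hX, Set.encard_coe_eq_coe_finsetCard]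
  have := card_genD m X D hm hX
  have hgc : (genD m X D).card = e + 1 := by omega
  rw [hgc]
  push_cast
  rfl

/-- A Sidon set of n+1 elements containing 0 (Erdos-Turan) -/
theorem exists_sidon (n : ℕ) (hn : 1 ≤ n) : ∃ X : Finset ℕ, X.card = n ∧ (∀ x ∈ X, 0 < x ∧ x < 8 * (n + 1) ^ 2) ∧
    ∀ a ∈ insert 0 X, ∀ b ∈ insert 0 X, ∀ c ∈ insert 0 X, ∀ d ∈ insert 0 X,
      a + b = c + d → (a = c ∧ b = d) ∨ (a = d ∧ b = c) := by
  obtain ⟨p, hp, hp1, hp2⟩ := Nat.exists_prime_lt_and_le_two_mul (n + 1) (by omega)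
  have : Fact p.Prime := ⟨hp⟩
  obtain ⟨f, hf⟩ : ∃ f : ℕ → ℕ, ∀ i, f i = 2 * p * i + i ^ 2 % p := ⟨_, fun _ => rfl⟩
  have hmod : ∀ i, i ^ 2 % p < p := fun i => Nat.mod_lt _ hp.pos
  have hdiv : ∀ a r : ℕ, r < 2 * p → (2 * p * a + r) / (2 * p) = a := by
    intro a r hr
    rw [Nat.mul_add_div (by omega), Nat.div_eq_of_lt hr, add_zero]
  have hfinj : Function.Injective f := by
    intro i j hij
    rw [hf, hf] at hij
    have h1 := hdiv i (i ^ 2 % p) (by have := hmod i; omega)
    have h2 := hdiv j (j ^ 2 % p) (by have := hmod j; omega)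
    rw [← h1, hij, h2]
  have hf0 : f 0 = 0 := by rw [hf]; simp
  have hmem : ∀ a ∈ insert 0 ((Finset.Icc 1 n).image f), ∃ i, i ≤ n ∧ f i = a := by
    intro a ha
    rcases Finset.mem_insert.mp ha with h | h
    · exact ⟨0, Nat.zero_le n, by rw [hf0, h]⟩
    · obtain ⟨i, hi, hia⟩ := Finset.mem_image.mp h
      exact ⟨i, (Finset.mem_Icc.mp hi).2, hia⟩
  have h2ne : (2 : ZMod p) ≠ 0 := by
    intro h
    have h1 : ((2 : ℕ) : ZMod p) = 0 := by exact_mod_cast h
    have h2 := Nat.le_of_dvd (by norm_num) ((ZMod.natCast_eq_zero_iff 2 p).mp h1)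
    omega
  have hcast : ∀ a b : ℕ, a ≤ n → b ≤ n → (a : ZMod p) = b → a = b := by
    intro a b ha hb hab
    have h1 := (ZMod.natCast_eq_natCast_iff' a b p).mp hab
    rwa [Nat.mod_eq_of_lt (by omega), Nat.mod_eq_of_lt (by omega)] at h1
  refine ⟨(Finset.Icc 1 n).image f, ?_, ?_, ?_⟩
  · rw [Finset.card_image_of_injective _ hfinj, Nat.card_Icc]
    omega
  · intro x hx
    obtain ⟨i, hi, rfl⟩ := Finset.mem_image.mp hx
    obtain ⟨hi1, hi2⟩ := Finset.mem_Icc.mp hi
    have h1 := hmod i
    have h2 : p * (2 * i + 1) ≤ 2 * (n + 1) * (2 * n + 1) := Nat.mul_le_mul hp2 (by omega)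
    have h3 : 0 < p * i := Nat.mul_pos hp.pos hi1
    have h4 : 2 * p * i = 2 * (p * i) := by ring
    rw [hf]
    constructor
    · rw [h4]
      omega
    · nlinarith
  · intro a ha b hb c hc d hd habcd
    obtain ⟨i, hi, rfl⟩ := hmem a ha
    obtain ⟨j, hj, rfl⟩ := hmem b hb
    obtain ⟨k, hk, rfl⟩ := hmem c hc
    obtain ⟨l, hl, rfl⟩ := hmem d hd
    have e1 : 2 * p * (i + j) + (i ^ 2 % p + j ^ 2 % p) =
        2 * p * (k + l) + (k ^ 2 % p + l ^ 2 % p) := by
      rw [hf, hf, hf, hf] at habcd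
      linarith
    have h1 := hdiv (i + j) (i ^ 2 % p + j ^ 2 % p) (by have := hmod i; have := hmod j; omega)
    have h2 := hdiv (k + l) (k ^ 2 % p + l ^ 2 % p) (by have := hmod k; have := hmod l; omega)
    have e2 : i + j = k + l := by rw [← h1, e1, h2]
    rw [e2] at e1
    have e3 : i ^ 2 % p + j ^ 2 % p = k ^ 2 % p + l ^ 2 % p := by omega
    have e4 : (i : ZMod p) ^ 2 + (j : ZMod p) ^ 2 = (k : ZMod p) ^ 2 + (l : ZMod p) ^ 2 := by
      have := congrArg (fun x : ℕ => (x : ZMod p)) e3
      simpa using this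
    have e5 : (i : ZMod p) + j = k + l := by exact_mod_cast congrArg (fun x : ℕ => (x : ZMod p)) e2
    have e6 : (2 : ZMod p) * (((i : ZMod p) - k) * ((i : ZMod p) - l)) = 0 := by
      linear_combination (2 * (i : ZMod p) - ((i : ZMod p) + j + k + l)) * e5 + e4
    rcases mul_eq_zero.mp ((mul_eq_zero.mp e6).resolve_left h2ne) with h | h
    · have h3 : i = k := hcast i k hi hk (sub_eq_zero.mp h)
      have h4 : j = l := by omega
      left
      rw [h3, h4]
      exact ⟨rfl, rfl⟩
    · have h3 : i = l := hcast i l hi hl (sub_eq_zero.mp h)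
      have h4 : j = k := by omega
      right
      rw [h3, h4]
      exact ⟨rfl, rfl⟩

/-- Counting for the set of pairs D and the set of triples T over a set X0 together with one more element z -/
theorem colexD (X0 B : Finset ℕ) (z : ℕ) (hz : z ∉ X0) (hB : B ⊆ X0) :
    ∃ D T : Finset (Multiset ℕ),
      (∀ p, p ∈ D ↔ (p.card = 2 ∧ ∀ t ∈ p, t ∈ X0) ∨ ∃ b ∈ B, p = {z, b}) ∧
      (∀ c ∈ T, c.card = 3 ∧ ∀ p, p ≤ c → p.card = 2 → p ∈ D) ∧
      D.card = (X0.card + 1).choose 2 + B.card ∧
      T.card = (X0.card + 2).choose 3 + (B.card + 1).choose 2 := by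
  classical
  let F : Finset ℕ → ℕ → Finset (Multiset ℕ) := fun Z n =>
    (Finset.univ : Finset (Sym Z n)).image (fun s => s.1.map Subtype.val)
  have hmem : ∀ (Z : Finset ℕ) (n : ℕ) (c : Multiset ℕ), c ∈ F Z n ↔ c.card = n ∧ ∀ t ∈ c, t ∈ Z := by
    intro Z n c
    simp only [F, Finset.mem_image, Finset.mem_univ, true_and]
    constructor
    · rintro ⟨s, rfl⟩
      refine ⟨by rw [Multiset.card_map]; exact s.2, ?_⟩
      intro t ht
      rw [Multiset.mem_map] at ht
      obtain ⟨z, -, rfl⟩ := ht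
      exact z.2
    · rintro ⟨h1, h2⟩
      lift c to Multiset Z using h2
      rw [Multiset.card_map] at h1
      exact ⟨⟨c, h1⟩, rfl⟩
  have hcard : ∀ (Z : Finset ℕ) (n : ℕ), (F Z n).card = (Z.card + n - 1).choose n := by
    intro Z n
    have h1 : (F Z n).card = Fintype.card (Sym Z n) := by
      simp only [F]
      rw [Finset.card_image_of_injective, Finset.card_univ]
      intro a b hab
      exact Subtype.ext (Multiset.map_injective Subtype.val_injective hab)
    rw [h1, Sym.card_sym_eq_choose, Fintype.card_coe]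
  have hD : ∀ p, p ∈ F X0 2 ∪ B.image (fun b => ({z, b} : Multiset ℕ)) ↔
      (p.card = 2 ∧ ∀ t ∈ p, t ∈ X0) ∨ ∃ b ∈ B, p = {z, b} := by
    intro p
    rw [Finset.mem_union, hmem, Finset.mem_image]
    constructor
    · rintro (h | ⟨b, hb, rfl⟩)
      · exact Or.inl h
      · exact Or.inr ⟨b, hb, rfl⟩
    · rintro (h | ⟨b, hb, rfl⟩)
      · exact Or.inl h
      · exact Or.inr ⟨b, hb, rfl⟩
  refine ⟨F X0 2 ∪ B.image (fun b => ({z, b} : Multiset ℕ)),
    F X0 3 ∪ (F B 2).image (fun q => z ::ₘ q), hD, ?_, ?_, ?_⟩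
  · intro c hc
    rw [Finset.mem_union, hmem, Finset.mem_image] at hc
    rcases hc with ⟨h1, h2⟩ | ⟨q, hq, rfl⟩
    · refine ⟨h1, fun p hp hp2 => (hD p).mpr (Or.inl ⟨hp2, fun t ht => h2 t (Multiset.mem_of_le hp ht)⟩)⟩
    · rw [hmem] at hq
      obtain ⟨h1, h2⟩ := hq
      refine ⟨by rw [Multiset.card_cons, h1], fun p hp hp2 => (hD p).mpr ?_⟩
      by_cases hz' : z ∈ p
      · right
        obtain ⟨p', rfl⟩ := Multiset.exists_cons_of_mem hz'
        have hp' : p' ≤ q := (Multiset.cons_le_cons_iff z).mp hp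
        rw [Multiset.card_cons] at hp2
        have hc1 : p'.card = 1 := by omega
        obtain ⟨t, rfl⟩ := Multiset.card_eq_one.mp hc1
        exact ⟨t, h2 t (Multiset.mem_of_le hp' (Multiset.mem_singleton_self t)), rfl⟩
      · left
        have hp' : p ≤ q := (Multiset.le_cons_of_notMem hz').mp hp
        exact ⟨hp2, fun t ht => hB (h2 t (Multiset.mem_of_le hp' ht))⟩
  · have hdis : Disjoint (F X0 2) (B.image (fun b => ({z, b} : Multiset ℕ))) := by
      rw [Finset.disjoint_left]
      intro c hc hc'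
      rw [hmem] at hc
      obtain ⟨b, _, rfl⟩ := Finset.mem_image.mp hc'
      exact hz (hc.2 z (Multiset.mem_cons_self z _))
    have hinj : Function.Injective (fun b : ℕ => ({z, b} : Multiset ℕ)) := by
      intro b b' hbb
      have h1 : (z ::ₘ {b} : Multiset ℕ) = z ::ₘ {b'} := hbb
      exact Multiset.singleton_inj.mp ((Multiset.cons_inj_right z).mp h1)
    rw [Finset.card_union_of_disjoint hdis, Finset.card_image_of_injective _ hinj]
    have e1 := hcard X0 2
    have a1 : X0.card + 2 - 1 = X0.card + 1 := by omega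
    rw [a1] at e1
    rw [e1]
  · have hdis : Disjoint (F X0 3) ((F B 2).image (fun q => z ::ₘ q)) := by
      rw [Finset.disjoint_left]
      intro c hc hc'
      rw [hmem] at hc
      obtain ⟨b, _, rfl⟩ := Finset.mem_image.mp hc'
      exact hz (hc.2 z (Multiset.mem_cons_self z _))
    have hinj : Function.Injective (fun q : Multiset ℕ => z ::ₘ q) := by
      intro b b' hbb
      exact (Multiset.cons_inj_right z).mp hbb
    rw [Finset.card_union_of_disjoint hdis, Finset.card_image_of_injective _ hinj]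
    have e1 := hcard X0 3
    have e2 := hcard B 2
    have a1 : X0.card + 3 - 1 = X0.card + 2 := by omega
    have a2 : B.card + 2 - 1 = B.card + 1 := by omega
    rw [a1] at e1
    rw [a2] at e2
    rw [e1, e2]

/-- From a Sidon set with one marked element. -/
theorem R_ge_colex (m : ℕ) (X0 B : Finset ℕ) (z : ℕ) (hm : 0 < m) (hz : z ∉ X0) (hB : B ⊆ X0)
    (hpos : ∀ x ∈ insert z X0, 0 < x ∧ x < m)
    (hS : ∀ x ∈ insert z X0, ∀ y ∈ insert z X0, (x ∈ X0 ∧ y ∈ X0) ∨ (x = z ∧ y ∈ B) ∨
      (y = z ∧ x ∈ B) → ∀ a ∈ insert 0 (insert z X0), ∀ b ∈ insert 0 (insert z X0),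
      (x + y) % m = (a + b) % m → (a = x ∧ b = y) ∨ (a = y ∧ b = x))
    (e : ℕ) (he : e + 1 + ((X0.card + 1).choose 2 + B.card) = m) :
    (((e + 1).choose 2 + ((X0.card + 2).choose 3 + (B.card + 1).choose 2) -
      ((X0.card + 1).choose 2 + B.card) : ℕ) : ℕ∞) ≤ R e m := by
  obtain ⟨D, T, hD, hT, hDc, hTc⟩ := colexD X0 B z hz hB
  rw [← hDc, ← hTc]
  rw [← hDc] at he
  refine R_geD m (insert z X0) D T hm ⟨hpos, ?_, ?_⟩ hT e he
  · intro p hp
    rcases (hD p).1 hp with ⟨h2, hall⟩ | ⟨b, hb, rfl⟩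
    · obtain ⟨x, y, rfl⟩ := Multiset.card_eq_two.1 h2
      exact ⟨x, Finset.mem_insert_of_mem (hall x (by simp)), y,
        Finset.mem_insert_of_mem (hall y (by simp)), rfl⟩
    · exact ⟨z, Finset.mem_insert_self _ _, b, Finset.mem_insert_of_mem (hB hb), rfl⟩
  · intro x hx y hy hxy a ha b hb hab
    refine hS x hx y hy ?_ a ha b hb hab
    rcases (hD _).1 hxy with ⟨h2, hall⟩ | ⟨b', hb', hxy'⟩
    · exact Or.inl ⟨hall x (by simp), hall y (by simp)⟩
    · right
      have hx' : x ∈ ({z, b'} : Multiset ℕ) := by rw [← hxy']; simp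
      have hy' : y ∈ ({z, b'} : Multiset ℕ) := by rw [← hxy']; simp
      have hsum : x + y = z + b' := by
        have := congrArg Multiset.sum hxy'
        simpa using this
      simp only [Multiset.insert_eq_cons, Multiset.mem_cons, Multiset.mem_singleton] at hx' hy'
      rcases hx' with h | h
      · left
        refine ⟨h, ?_⟩
        have : y = b' := by omega
        rw [this]; exact hb'
      · right
        refine ⟨by omega, ?_⟩
        rw [h]; exact hb'

theorem isUpper_two (k b : ℕ) (hb : b ≤ k) :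
    IsUpper ((k + 1).choose 2 + b) 2 ((k + 2).choose 3 + (b + 1).choose 2) := by
  rcases Nat.eq_zero_or_pos b with rfl | hb0
  · rcases Nat.eq_zero_or_pos k with rfl | hk
    · left
      exact ⟨rfl, rfl⟩
    · right
      refine ⟨2, fun _ => k + 1, by norm_num, le_rfl, by show 2 ≤ k + 1; omega,
        fun i h1 h2 => by omega, ?_, ?_⟩
      · simp
      · simp
  · right
    refine ⟨1, fun i => if i = 1 then b else k + 1, le_rfl, by norm_num, ?_, ?_, ?_, ?_⟩
    · show 1 ≤ (if 1 = 1 then b else k + 1)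
      rw [if_pos rfl]
      exact hb0
    · intro i h1 h2
      have : i = 1 := by omega
      subst this
      simp
      omega
    · have : Finset.Icc 1 2 = ({1, 2} : Finset ℕ) := by decide
      rw [this, Finset.sum_insert (by decide), Finset.sum_singleton]
      simp
      omega
    · have : Finset.Icc 1 2 = ({1, 2} : Finset ℕ) := by decide
      rw [this, Finset.sum_insert (by decide), Finset.sum_singleton]
      simp only [if_true]
      rw [if_neg (by norm_num : ¬ (2 : ℕ) = 1)]
      rw [show k + 1 + 1 = k + 2 from rfl, show (1 : ℕ) + 1 = 2 from rfl, show (2 : ℕ) + 1 = 3 from rfl]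
      omega

theorem choose_two_lt (e s : ℕ) (he : 3 ≤ e) (h : s ≤ e) : e + 1 + s < (e + 2).choose 2 := by
  have h1 : (e + 2).choose 2 * 2 = (e + 2) * (e + 1) := by
    rw [Nat.choose_two_right]
    have : (e + 2) - 1 = e + 1 := rfl
    rw [this]
    exact Nat.div_mul_cancel (by
      rw [mul_comm]
      exact (Nat.even_mul_succ_self (e + 1)).two_dvd)
  nlinarith

/-- The general theorem in terms of `C(e, m)`. -/
theorem attain_of_colex (k b : ℕ) (hb : b ≤ k) (e : ℕ) (he3 : 3 ≤ e)
    (hs : (k + 1).choose 2 + b ≤ e)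
    (X0 B : Finset ℕ) (z : ℕ) (hX0 : X0.card = k) (hBc : B.card = b)
    (hz : z ∉ X0) (hB : B ⊆ X0)
    (hpos : ∀ x ∈ insert z X0, 0 < x ∧ x < e + 1 + ((k + 1).choose 2 + b))
    (hS : ∀ x ∈ insert z X0, ∀ y ∈ insert z X0, (x ∈ X0 ∧ y ∈ X0) ∨ (x = z ∧ y ∈ B) ∨
      (y = z ∧ x ∈ B) → ∀ a ∈ insert 0 (insert z X0), ∀ b' ∈ insert 0 (insert z X0),
      (x + y) % (e + 1 + ((k + 1).choose 2 + b)) = (a + b') % (e + 1 + ((k + 1).choose 2 + b)) →
      (a = x ∧ b' = y) ∨ (a = y ∧ b' = x)) :
    ∃ c, IsGeneralBound e (e + 1 + ((k + 1).choose 2 + b)) c ∧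
      (c : ℕ∞) ≤ R e (e + 1 + ((k + 1).choose 2 + b)) := by
  subst hX0 hBc
  refine ⟨(e + 1).choose 2 + ((X0.card + 2).choose 3 + (B.card + 1).choose 2) -
      ((X0.card + 1).choose 2 + B.card), ?_, ?_⟩
  · refine ⟨2, (X0.card + 1).choose 2 + B.card, (X0.card + 2).choose 3 + (B.card + 1).choose 2,
      by norm_num, ?_, ?_, ?_, isUpper_two _ _ hb, ?_⟩
    · have : (e + 2 - 1).choose (2 - 1) = e + 1 := by
        show (e + 1).choose 1 = e + 1
        exact Nat.choose_one_right _
      omega
    · exact choose_two_lt e _ he3 hs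
    · have : (e + 2 - 1).choose (2 - 1) = e + 1 := by
        show (e + 1).choose 1 = e + 1
        exact Nat.choose_one_right _
      omega
    · have h1 : (e + 2 - 1).choose 2 = (e + 1).choose 2 := rfl
      rw [h1]
      have h2 : e ≤ (e + 1).choose 2 := by
        have : (e + 1).choose 2 = e.choose 1 + e.choose 2 := Nat.choose_succ_succ e 1
        rw [this, Nat.choose_one_right]
        omega
      omega
  · exact R_ge_colex _ X0 B z (by omega) hz hB hpos hS e rfl

theorem exists_rep (s : ℕ) : ∃ k b, b ≤ k ∧ s = (k + 1).choose 2 + b := by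
  induction s with
  | zero => exact ⟨0, 0, le_rfl, rfl⟩
  | succ s ih =>
    obtain ⟨k, b, hb, rfl⟩ := ih
    by_cases h : b < k
    · exact ⟨k, b + 1, h, by omega⟩
    · have : b = k := by omega
      subst this
      refine ⟨b + 1, 0, by omega, ?_⟩
      have : (b + 1 + 1).choose 2 = (b + 1).choose 1 + (b + 1).choose 2 :=
        Nat.choose_succ_succ (b + 1) 1
      rw [this, Nat.choose_one_right]
      omega

/-- A Sidon set in the integers suffices for all large `m`. -/
theorem attain_of_sidon (k b : ℕ) (hb : b ≤ k) (e L : ℕ) (he3 : 3 ≤ e)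
    (hs : (k + 1).choose 2 + b ≤ e) (hL : 2 * L ≤ e)
    (Z : Finset ℕ) (hZ : Z.card = k + 1) (hpos : ∀ x ∈ Z, 0 < x ∧ x ≤ L)
    (hS : ∀ a ∈ insert 0 Z, ∀ b ∈ insert 0 Z, ∀ c ∈ insert 0 Z, ∀ d ∈ insert 0 Z,
      a + b = c + d → (a = c ∧ b = d) ∨ (a = d ∧ b = c)) :
    ∃ c, IsGeneralBound e (e + 1 + ((k + 1).choose 2 + b)) c ∧
      (c : ℕ∞) ≤ R e (e + 1 + ((k + 1).choose 2 + b)) := by
  classical
  have hne : Z.Nonempty := by
    rw [← Finset.card_pos]; omega
  obtain ⟨z, hz⟩ := hne
  have hc : (Z.erase z).card = k := by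
    rw [Finset.card_erase_of_mem hz, hZ]; rfl
  obtain ⟨B, hB, hBc⟩ := Finset.exists_subset_card_eq (hc ▸ hb : b ≤ (Z.erase z).card)
  have hins : insert z (Z.erase z) = Z := Finset.insert_erase hz
  have hle : ∀ a ∈ insert 0 Z, a ≤ L := by
    intro a ha
    rcases Finset.mem_insert.1 ha with rfl | h
    · exact Nat.zero_le _
    · exact (hpos a h).2
  refine attain_of_colex k b hb e he3 hs (Z.erase z) B z hc hBc (Finset.notMem_erase z Z) hB ?_ ?_
  · rw [hins]
    intro x hx
    have := hpos x hx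
    omega
  · rw [hins]
    intro x hx y hy _ a ha b' hb' h
    have h1 := hle x (Finset.mem_insert_of_mem hx)
    have h2 := hle y (Finset.mem_insert_of_mem hy)
    have h3 := hle a ha
    have h4 := hle b' hb'
    rw [Nat.mod_eq_of_lt (by omega), Nat.mod_eq_of_lt (by omega)] at h
    exact hS a ha b' hb' x (Finset.mem_insert_of_mem hx) y (Finset.mem_insert_of_mem hy) h.symm

theorem attain_linear (δ e : ℕ) (hδ : 1 ≤ δ) (he : 72 * δ ≤ e) :
    ∃ c, IsGeneralBound e (e + δ) c ∧ (c : ℕ∞) ≤ R e (e + δ) := by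
  obtain ⟨k, b, hb, hs⟩ := exists_rep (δ - 1)
  obtain ⟨Z, hZc, hZpos, hZS⟩ := exists_sidon (k + 1) (by omega)
  have hch : (k + 1).choose 2 * 2 = (k + 1) * k := by
    rw [Nat.choose_two_right]
    have : (k + 1) - 1 = k := rfl
    rw [this]
    exact Nat.div_mul_cancel (by
      rw [mul_comm]
      exact (Nat.even_mul_succ_self k).two_dvd)
  have hL : 2 * (8 * (k + 1 + 1) ^ 2) ≤ e := by
    have : 16 * (k + 2) ^ 2 ≤ 72 * ((k + 1).choose 2 + 1) := by
      rcases k with _ | k
      · norm_num
      · nlinarith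
    have h2 : 72 * ((k + 1).choose 2 + 1) ≤ 72 * δ := by
      apply Nat.mul_le_mul_left
      omega
    have h3 : (k + 1 + 1) ^ 2 = (k + 2) ^ 2 := rfl
    rw [h3]
    omega
  have h := attain_of_sidon k b hb e (8 * (k + 1 + 1) ^ 2) (by omega) (by omega) hL Z hZc
    (fun x hx => ⟨(hZpos x hx).1, (hZpos x hx).2.le⟩) hZS
  have hm : e + 1 + ((k + 1).choose 2 + b) = e + δ := by omega
  rw [hm] at h
  exact h

/-- A Sidon set mod `m` (with 0) gives equality when `m - e - 1` is a triangular number. -/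
theorem attain_triangular (k : ℕ) (e : ℕ) (he3 : 3 ≤ e) (hs : (k + 1).choose 2 ≤ e)
    (X : Finset ℕ) (hXc : X.card = k)
    (hpos : ∀ x ∈ X, 0 < x ∧ x < e + 1 + (k + 1).choose 2)
    (hS : ∀ a ∈ insert 0 X, ∀ b ∈ insert 0 X, ∀ c ∈ insert 0 X, ∀ d ∈ insert 0 X,
      (a + b) % (e + 1 + (k + 1).choose 2) = (c + d) % (e + 1 + (k + 1).choose 2) →
      (a = c ∧ b = d) ∨ (a = d ∧ b = c)) :
    ∃ c, IsGeneralBound e (e + 1 + (k + 1).choose 2) c ∧
      (c : ℕ∞) ≤ R e (e + 1 + (k + 1).choose 2) := by
  subst hXc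
  obtain ⟨z, hz⟩ := X.exists_notMem
  obtain ⟨D, T, hD, hT, hDc, hTc⟩ := colexD X ∅ z hz (Finset.empty_subset X)
  have hDc' : D.card = (X.card + 1).choose 2 := by
    rw [hDc, Finset.card_empty, add_zero]
  have hTc' : T.card = (X.card + 2).choose 3 := by
    rw [hTc, Finset.card_empty]
    rfl
  have hgood : GoodD (e + 1 + (X.card + 1).choose 2) X D := by
    refine ⟨hpos, ?_, ?_⟩
    · intro p hp
      rcases (hD p).1 hp with ⟨h2, hall⟩ | ⟨b, hb, rfl⟩
      · obtain ⟨x, y, rfl⟩ := Multiset.card_eq_two.1 h2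
        exact ⟨x, hall x (by simp), y, hall y (by simp), rfl⟩
      · exact absurd hb (Finset.notMem_empty b)
    · intro x hx y hy _ a ha b hb hab
      exact hS a ha b hb x (Finset.mem_insert_of_mem hx) y (Finset.mem_insert_of_mem hy) hab.symm
  have h := R_geD (e + 1 + (X.card + 1).choose 2) X D T (by omega) hgood hT e (by rw [hDc'])
  rw [hDc', hTc'] at h
  have hup := isUpper_two X.card 0 (Nat.zero_le _)
  simp only [add_zero] at hup
  refine ⟨_, ⟨2, (X.card + 1).choose 2, (X.card + 2).choose 3 + (0 + 1).choose 2,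
      by norm_num, ?_, ?_, ?_, ?_, ?_⟩, h⟩
  · have : (e + 2 - 1).choose (2 - 1) = e + 1 := by
      show (e + 1).choose 1 = e + 1
      exact Nat.choose_one_right _
    omega
  · exact choose_two_lt e _ he3 hs
  · have : (e + 2 - 1).choose (2 - 1) = e + 1 := by
      show (e + 1).choose 1 = e + 1
      exact Nat.choose_one_right _
    omega
  · exact hup
  · have h1 : (e + 2 - 1).choose 2 = (e + 1).choose 2 := rfl
    rw [h1]
    have h2 : e ≤ (e + 1).choose 2 := by
      have : (e + 1).choose 2 = e.choose 1 + e.choose 2 := Nat.choose_succ_succ e 1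
      rw [this, Nat.choose_one_right]
      omega
    have h3 : (0 + 1).choose 2 = 0 := rfl
    omega

theorem attain_seven (e : ℕ) (he : 6 ≤ e) :
    ∃ c, IsGeneralBound e (e + 7) c ∧ (c : ℕ∞) ≤ R e (e + 7) := by
  have hc : (({1, 4, 6} : Finset ℕ)).card = 3 := by decide
  have h4 : (3 + 1).choose 2 = 6 := by decide
  have h := attain_triangular 3 e (by omega) (by rw [h4]; exact he) {1, 4, 6} hc (by
    intro x hx
    simp only [Finset.mem_insert, Finset.mem_singleton] at hx
    omega) (by
    intro a ha b hb c hc d hd h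
    simp only [Finset.mem_insert, Finset.mem_singleton] at ha hb hc hd
    rw [h4, Nat.mod_eq_of_lt (by omega), Nat.mod_eq_of_lt (by omega)] at h
    omega)
  rw [h4] at h
  exact h

theorem attain_general (k b e : ℕ) (hb : b ≤ k) (he3 : 3 ≤ e) (hs : (k + 1).choose 2 + b ≤ e)
    (Z : Finset ℕ) (hZ : Z.card = k + 1 ∨ (b = 0 ∧ Z.card = k))
    (hpos : ∀ z ∈ Z, 0 < z ∧ z < e + 1 + ((k + 1).choose 2 + b))
    (hS : SidonMod (e + 1 + ((k + 1).choose 2 + b)) (insert 0 Z)) :
    Attained e (e + 1 + ((k + 1).choose 2 + b)) := by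
  classical
  rcases hZ with hZ | ⟨rfl, hZ⟩
  · have hne : Z.Nonempty := by
      rw [← Finset.card_pos]; omega
    obtain ⟨z, hz⟩ := hne
    have hc : (Z.erase z).card = k := by
      rw [Finset.card_erase_of_mem hz, hZ]; rfl
    obtain ⟨B, hB, hBc⟩ := Finset.exists_subset_card_eq (hc ▸ hb : b ≤ (Z.erase z).card)
    have hins : insert z (Z.erase z) = Z := Finset.insert_erase hz
    refine attain_of_colex k b hb e he3 hs (Z.erase z) B z hc hBc (Finset.notMem_erase z Z) hB ?_ ?_
    · rw [hins]
      exact hpos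
    · rw [hins]
      intro x hx y hy _ a ha b' hb' h
      exact hS a ha b' hb' x (Finset.mem_insert_of_mem hx) y (Finset.mem_insert_of_mem hy) h.symm
  · simp only [add_zero] at hs hpos hS ⊢
    exact attain_triangular k e he3 hs Z hZ hpos hS

/-- Integer version of `attain_of_colex`. -/
theorem attain_int (k b : ℕ) (hb : b ≤ k) (e L : ℕ) (he3 : 3 ≤ e)
    (hs : (k + 1).choose 2 + b ≤ e) (hL : 2 * L < e + 1 + ((k + 1).choose 2 + b))
    (X0 B : Finset ℕ) (z : ℕ) (hX0 : X0.card = k) (hBc : B.card = b)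
    (hz : z ∉ X0) (hB : B ⊆ X0)
    (hpos : ∀ x ∈ insert z X0, 0 < x ∧ x ≤ L)
    (hS : ∀ x ∈ insert z X0, ∀ y ∈ insert z X0, (x ∈ X0 ∧ y ∈ X0) ∨ (x = z ∧ y ∈ B) ∨
      (y = z ∧ x ∈ B) → ∀ a ∈ insert 0 (insert z X0), ∀ b' ∈ insert 0 (insert z X0),
      x + y = a + b' → (a = x ∧ b' = y) ∨ (a = y ∧ b' = x)) :
    Attained e (e + 1 + ((k + 1).choose 2 + b)) := by
  have hle : ∀ a ∈ insert 0 (insert z X0), a ≤ L := by
    intro a ha
    rcases Finset.mem_insert.1 ha with rfl | h
    · exact Nat.zero_le _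
    · exact (hpos a h).2
  refine attain_of_colex k b hb e he3 hs X0 B z hX0 hBc hz hB ?_ ?_
  · intro x hx
    have := hpos x hx
    omega
  · intro x hx y hy hd a ha b' hb' h
    have h1 := hle x (Finset.mem_insert_of_mem hx)
    have h2 := hle y (Finset.mem_insert_of_mem hy)
    have h3 := hle a ha
    have h4 := hle b' hb'
    rw [Nat.mod_eq_of_lt (by omega), Nat.mod_eq_of_lt (by omega)] at h
    exact hS x hx y hy hd a ha b' hb' h

theorem attain_tri_int (k : ℕ) (e L : ℕ) (he3 : 3 ≤ e)
    (hs : (k + 1).choose 2 ≤ e) (hL : 2 * L < e + 1 + (k + 1).choose 2)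
    (X : Finset ℕ) (hX : X.card = k) (hpos : ∀ x ∈ X, 0 < x ∧ x ≤ L)
    (hS : ∀ a ∈ insert 0 X, ∀ b ∈ insert 0 X, ∀ c ∈ insert 0 X, ∀ d ∈ insert 0 X,
      a + b = c + d → (a = c ∧ b = d) ∨ (a = d ∧ b = c)) :
    Attained e (e + 1 + (k + 1).choose 2) := by
  have hle : ∀ a ∈ insert 0 X, a ≤ L := by
    intro a ha
    rcases Finset.mem_insert.1 ha with rfl | h
    · exact Nat.zero_le _
    · exact (hpos a h).2
  refine attain_triangular k e he3 hs X hX ?_ ?_
  · intro x hx
    have := hpos x hx
    omega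
  · intro a ha b hb c hc d hd h
    have h1 := hle a ha
    have h2 := hle b hb
    have h3 := hle c hc
    have h4 := hle d hd
    rw [Nat.mod_eq_of_lt (by omega), Nat.mod_eq_of_lt (by omega)] at h
    exact hS a ha b hb c hc d hd h

theorem col8 (e : ℕ) (he : 9 ≤ e) : Attained e (e + 8) := by
  have hc : (3 + 1).choose 2 = 6 := by decide
  have h := attain_int 3 1 (by norm_num) e 8 (by omega) (by rw [hc]; omega) (by rw [hc]; omega)
    {3, 7, 8} {3} 1 (by decide) (by decide) (by decide) (by decide) (by decide) (by decide)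
  rw [hc] at h
  exact h

theorem col9 (e : ℕ) (he : 8 ≤ e) : Attained e (e + 9) := by
  have hc : (3 + 1).choose 2 = 6 := by decide
  have h := attain_int 3 2 (by norm_num) e 8 (by omega) (by rw [hc]; omega) (by rw [hc]; omega)
    {3, 7, 8} {3, 8} 1 (by decide) (by decide) (by decide) (by decide) (by decide) (by decide)
  rw [hc] at h
  exact h

theorem col10 (e : ℕ) (he : 9 ≤ e) : Attained e (e + 10) := by
  have hc : (3 + 1).choose 2 = 6 := by decide
  have h := attain_int 3 3 (by norm_num) e 9 (by omega) (by rw [hc]; omega) (by rw [hc]; omega)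
    {2, 6, 9} {2, 6, 9} 1 (by decide) (by decide) (by decide) (by decide) (by decide) (by decide)
  rw [hc] at h
  exact h

theorem col11 (e : ℕ) (he : 12 ≤ e) : Attained e (e + 11) := by
  have hc : (4 + 1).choose 2 = 10 := by decide
  have h := attain_tri_int 4 e 11 (by omega) (by rw [hc]; omega) (by rw [hc]; omega)
    {1, 4, 9, 11} (by decide) (by decide) (by decide)
  rw [hc] at h
  exact h

theorem col11' : Attained 10 21 := by
  have hc : (4 + 1).choose 2 = 10 := by decide
  have h := attain_triangular 4 10 (by omega) (by rw [hc])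
    {1, 4, 14, 16} (by decide) (by rw [hc]; decide) (by rw [hc]; decide)
  rw [hc] at h
  exact h

theorem col12 (e : ℕ) (he : 15 ≤ e) : Attained e (e + 12) := by
  have hc : (4 + 1).choose 2 = 10 := by decide
  have h := attain_int 4 1 (by norm_num) e 13 (by omega) (by rw [hc]; omega) (by rw [hc]; omega)
    {4, 5, 11, 13} {5} 1 (by decide) (by decide) (by decide) (by decide) (by decide) (by decide)
  rw [hc] at h
  exact h

theorem col13 (e : ℕ) (he : 14 ≤ e) : Attained e (e + 13) := by
  have hc : (4 + 1).choose 2 = 10 := by decide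
  have h := attain_int 4 2 (by norm_num) e 13 (by omega) (by rw [hc]; omega) (by rw [hc]; omega)
    {4, 5, 11, 13} {5, 11} 1 (by decide) (by decide) (by decide) (by decide) (by decide) (by decide)
  rw [hc] at h
  exact h

theorem col14 (e : ℕ) (he : 13 ≤ e) : Attained e (e + 14) := by
  have hc : (4 + 1).choose 2 = 10 := by decide
  have h := attain_int 4 3 (by norm_num) e 13 (by omega) (by rw [hc]; omega) (by rw [hc]; omega)
    {4, 5, 11, 13} {5, 11, 13} 1 (by decide) (by decide) (by decide) (by decide) (by decide)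
    (by decide)
  rw [hc] at h
  exact h


/-- `R(e, m) = C(e, m)` holds (that is `C(e, m) ≤ R(e, m)`, the other inequality being known) in the
following cases:
* the columns `m = e + 7, ..., e + 14` from explicit thresholds on, and `(e, m) = (10, 21)`;
* for all `δ ≥ 1`, `e ≥ 72 δ` and `m = e + δ`;
* whenever `m = e + 1 + (binom(k+1, 2) + b)` with `0 ≤ b ≤ k`, `binom(k+1, 2) + b ≤ e`, and there is
  a Sidon set modulo `m` containing `0` with `k + 2` elements (`k + 1` elements suffice if `b = 0`). -/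
theorem result :
    ((∀ e : ℕ, 6 ≤ e → Attained e (e + 7)) ∧
      (∀ e : ℕ, 9 ≤ e → Attained e (e + 8)) ∧
      (∀ e : ℕ, 8 ≤ e → Attained e (e + 9)) ∧
      (∀ e : ℕ, 9 ≤ e → Attained e (e + 10)) ∧
      (∀ e : ℕ, 12 ≤ e → Attained e (e + 11)) ∧
      Attained 10 21 ∧
      (∀ e : ℕ, 15 ≤ e → Attained e (e + 12)) ∧
      (∀ e : ℕ, 14 ≤ e → Attained e (e + 13)) ∧
      (∀ e : ℕ, 13 ≤ e → Attained e (e + 14))) ∧
    (∀ δ e : ℕ, 1 ≤ δ → 72 * δ ≤ e → Attained e (e + δ)) ∧
    (∀ k b e : ℕ, b ≤ k → 3 ≤ e → (k + 1).choose 2 + b ≤ e →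
      (∃ Z : Finset ℕ, (Z.card = k + 1 ∨ (b = 0 ∧ Z.card = k)) ∧
        (∀ z ∈ Z, 0 < z ∧ z < e + 1 + ((k + 1).choose 2 + b)) ∧
        SidonMod (e + 1 + ((k + 1).choose 2 + b)) (insert 0 Z)) →
      Attained e (e + 1 + ((k + 1).choose 2 + b))) :=
  ⟨⟨attain_seven, col8, col9, col10, col11, col11', col12, col13, col14⟩, attain_linear,
    fun k b e hb he3 hs ⟨Z, hZ, hpos, hS⟩ => attain_general k b e hb he3 hs Z hZ hpos hS⟩

end Pool.Agent.Results.MP_8fc134_al.AColumns
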